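import Pool.Agent.J4H12.PZ.Stm

/-!
# PZ, DEN: the explicit bodies are dense
-/

set_option autoImplicit false

open MeasureTheory Set Filter Topology Metric
open scoped Pointwise RealInnerProductSpace ENNReal

namespace Pool.Agent.J4H84.PZ

open Pool.Agent.H638.IB Pool.Agent.J4H12.PZ

/-- supporting functionals -/
theorem exists_support (hGB : S_GB) {n : ℕ} {K : Set (E n)} (hK : Body K) {δ : ℝ} (hδ : 0 < δ)
    (v : E n) (hv : v ≠ 0) :
    ∃ a : E n, (∀ y ∈ K, ⟪a, y⟫ ≤ 1) ∧ gauge K v < (1 + δ) * ⟪a, v⟫ := by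
  obtain ⟨⟨r, R, hr, hR, hrK, hKR⟩, hmem, hpos, hhom, -, -, -, -, -⟩ := hGB K hK
  have hg : 0 < gauge K v := hpos v hv
  set c : ℝ := (1 + δ) / gauge K v with hc
  have hc0 : 0 < c := by positivity
  have hx : c • v ∉ K := by
    rw [← hmem, hhom, abs_of_pos hc0, hc, div_mul_cancel₀ _ hg.ne']
    linarith
  obtain ⟨f, u, h1, h2⟩ := geometric_hahn_banach_closed_point hK.convex hK.compact.isClosed hx
  have h0 : (0 : E n) ∈ K := hrK (mem_closedBall_self hr.le)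
  have hu : 0 < u := by simpa using h1 0 h0
  refine ⟨u⁻¹ • (InnerProductSpace.toDual ℝ (E n)).symm f, fun y hy => ?_, ?_⟩
  · rw [real_inner_smul_left, InnerProductSpace.toDual_symm_apply, inv_mul_le_iff₀ hu, mul_one]
    exact (h1 y hy).le
  · rw [real_inner_smul_left, InnerProductSpace.toDual_symm_apply]
    have h3 : u < c * f v := by simpa using h2
    have h4 : 1 < u⁻¹ * (c * f v) := by
      rw [lt_inv_mul_iff₀ hu, mul_one]
      exact h3
    have h5 : u⁻¹ * (c * f v) * gauge K v = (1 + δ) * (u⁻¹ * f v) := by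
      rw [hc]
      field_simp
    rw [← h5]
    exact lt_mul_of_one_lt_left hg h4

theorem t_DEN (hGB : S_GB) : S_DEN := by
  intro L K hK δ hδ hδ1
  obtain ⟨⟨r, R, hr, hR, hrK, hKR⟩, hmem, hpos, hhom, -, hcont, -, -, -⟩ := hGB K hK
  have hex : ∀ v : E (L + 3), ∃ a : E (L + 3), v ≠ 0 →
      ((∀ y ∈ K, ⟪a, y⟫ ≤ 1) ∧ gauge K v < (1 + δ) * ⟪a, v⟫) := by
    intro v
    by_cases hv : v = 0
    · exact ⟨0, fun h => absurd hv h⟩
    · obtain ⟨a, ha⟩ := exists_support hGB hK hδ v hv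
      exact ⟨a, fun _ => ha⟩
  choose b hb using hex
  have hsph : ∀ v ∈ sphere (0 : E (L + 3)) 1, v ≠ 0 := by
    intro v hv h
    rw [h] at hv
    simp at hv
  obtain ⟨s, hs1, hs2⟩ := (isCompact_sphere (0 : E (L + 3)) 1).elim_nhds_subcover
    (fun v => {w | gauge K w < (1 + δ) * ⟪b v, w⟫}) (by
      intro v hv
      apply IsOpen.mem_nhds
      · exact isOpen_lt hcont (by fun_prop)
      · exact (hb v (hsph v hv)).2)
  -- the functionals
  set k := s.card with hk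
  let a : Fin k → E (L + 3) := fun i => b (s.equivFin.symm i)
  have ha1 : ∀ i, ∀ y ∈ K, ⟪a i, y⟫ ≤ 1 := fun i =>
    (hb _ (hsph _ (hs1 _ (s.equivFin.symm i).2))).1
  -- upper bound
  have hle : ∀ i x, |⟪a i, x⟫| ≤ gauge K x := by
    intro i x
    have key : ∀ x, ⟪a i, x⟫ ≤ gauge K x := by
      intro x
      by_cases hx : x = 0
      · rw [hx, inner_zero_right, gauge_zero]
      · have hg := hpos x hx
        have h1 : (gauge K x)⁻¹ • x ∈ K := by
          rw [← hmem, hhom, abs_of_pos (inv_pos.2 hg), inv_mul_cancel₀ hg.ne']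
        have h2 := ha1 i _ h1
        rw [real_inner_smul_right, inv_mul_le_iff₀ hg, mul_one] at h2
        exact h2
    rw [abs_le]
    constructor
    · have h1 := key (-x)
      rw [inner_neg_right] at h1
      have h2 : gauge K (-x) = gauge K x := by
        have := hhom (-1) x
        rw [neg_one_smul, abs_neg, abs_one, one_mul] at this
        exact this
      rw [h2] at h1
      linarith
    · exact key x
  -- lower bound
  have hge : ∀ x : E (L + 3), x ≠ 0 → ∃ i, gauge K x < (1 + δ) * ⟪a i, x⟫ := by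
    intro x hx
    have hn : 0 < ‖x‖ := norm_pos_iff.2 hx
    have hw : ‖x‖⁻¹ • x ∈ sphere (0 : E (L + 3)) 1 := by
      rw [mem_sphere_zero_iff_norm, norm_smul, norm_inv, norm_norm, inv_mul_cancel₀ hn.ne']
    obtain ⟨v, hv, hvw⟩ := mem_iUnion₂.1 (hs2 hw)
    refine ⟨s.equivFin ⟨v, hv⟩, ?_⟩
    have h1 : a (s.equivFin ⟨v, hv⟩) = b v := by
      show b (s.equivFin.symm (s.equivFin ⟨v, hv⟩)) = b v
      rw [Equiv.symm_apply_apply]
    rw [h1]
    have h2 : gauge K (‖x‖⁻¹ • x) < (1 + δ) * ⟪b v, ‖x‖⁻¹ • x⟫ := hvw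
    rw [hhom, abs_of_pos (inv_pos.2 hn), real_inner_smul_right, mul_left_comm] at h2
    exact lt_of_mul_lt_mul_left h2 (inv_pos.2 hn).le
  -- the exponent
  obtain ⟨m, hm2, hmk⟩ : ∃ m : ℕ, 2 ≤ m ∧ (k : ℝ) ≤ (1 + δ) ^ m := by
    have h1 : Tendsto (fun m : ℕ => (1 + δ) ^ m) atTop atTop :=
      tendsto_pow_atTop_atTop_of_one_lt (by linarith)
    obtain ⟨m, hm⟩ := ((eventually_ge_atTop 2).and (h1.eventually_ge_atTop (k : ℝ))).exists
    exact ⟨m, hm⟩
  have hm0 : m ≠ 0 := by omega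
  have hgnn : ∀ x, 0 ≤ gauge K x := fun x => gauge_nonneg x
  -- the norm
  have hnorm : ∀ x : E (L + 3), ‖x‖ ≤ R * gauge K x := by
    intro x
    by_cases hx : x = 0
    · rw [hx, norm_zero, gauge_zero, mul_zero]
    · have hg := hpos x hx
      have h1 : (gauge K x)⁻¹ • x ∈ K := by
        rw [← hmem, hhom, abs_of_pos (inv_pos.2 hg), inv_mul_cancel₀ hg.ne']
      have h2 := hKR h1
      rw [mem_closedBall_zero_iff, norm_smul, norm_inv, Real.norm_of_nonneg hg.le,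
        inv_mul_le_iff₀ hg] at h2
      linarith
  have hpow : ∀ (i : Fin k) x, ⟪a i, x⟫ ^ (2 * m) = (|⟪a i, x⟫| ^ 2) ^ m := by
    intro i x
    rw [← pow_mul, ← abs_pow, abs_of_nonneg (Even.pow_nonneg (even_two_mul m) _)]
  have hnn : ∀ (i : Fin k) x, 0 ≤ ⟪a i, x⟫ ^ (2 * m) := fun i x =>
    Even.pow_nonneg (even_two_mul m) _
  refine ⟨k, a, m, δ / R ^ 2, hm2, by positivity, ?_, ?_, ?_⟩
  · intro x hx
    obtain ⟨i, hi⟩ := hge x hx
    refine ⟨i, fun h => ?_⟩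
    rw [h, mul_zero] at hi
    exact absurd hi (not_lt.2 (hgnn x))
  · -- `(1 - δ) K` in the body
    intro x hx
    obtain ⟨y, hy, rfl⟩ := mem_smul_set.1 hx
    have hgy : gauge K y ≤ 1 := (hmem y).2 hy
    have h1δ : (0 : ℝ) < 1 - δ := by linarith
    set G := gauge K ((1 - δ) • y) with hG
    have hG1 : G ≤ 1 - δ := by
      rw [hG, hhom, abs_of_pos h1δ]
      exact mul_le_of_le_one_right h1δ.le hgy
    have hG0 : 0 ≤ G := hgnn _
    have h2 : ∑ i, ⟪a i, (1 - δ) • y⟫ ^ (2 * m) ≤ ((1 + δ) * G ^ 2) ^ m := by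
      calc ∑ i, ⟪a i, (1 - δ) • y⟫ ^ (2 * m) ≤ ∑ _i : Fin k, (G ^ 2) ^ m := by
            refine Finset.sum_le_sum fun i _ => ?_
            rw [hpow]
            have := hle i ((1 - δ) • y)
            gcongr
        _ = (k : ℝ) * (G ^ 2) ^ m := by simp
        _ ≤ (1 + δ) ^ m * (G ^ 2) ^ m := by gcongr
        _ = ((1 + δ) * G ^ 2) ^ m := (mul_pow _ _ _).symm
    have h3 : (∑ i, ⟪a i, (1 - δ) • y⟫ ^ (2 * m)) ^ ((m : ℝ)⁻¹) ≤ (1 + δ) * G ^ 2 := by
      calc (∑ i, ⟪a i, (1 - δ) • y⟫ ^ (2 * m)) ^ ((m : ℝ)⁻¹)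
          ≤ (((1 + δ) * G ^ 2) ^ m) ^ ((m : ℝ)⁻¹) :=
            Real.rpow_le_rpow (Finset.sum_nonneg fun i _ => hnn i _) h2 (by positivity)
        _ = (1 + δ) * G ^ 2 := Real.pow_rpow_inv_natCast (by positivity) hm0
    have h4 : δ / R ^ 2 * ‖(1 - δ) • y‖ ^ 2 ≤ δ * G ^ 2 := by
      have h5 : ‖(1 - δ) • y‖ ^ 2 ≤ (R * G) ^ 2 := by
        have := hnorm ((1 - δ) • y)
        gcongr
      calc δ / R ^ 2 * ‖(1 - δ) • y‖ ^ 2 ≤ δ / R ^ 2 * (R * G) ^ 2 := by gcongr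
        _ = δ * G ^ 2 := by field_simp
    show Nf a m (δ / R ^ 2) ((1 - δ) • y) ≤ 1
    unfold Nf
    have h6 : G ^ 2 ≤ (1 - δ) ^ 2 := by gcongr
    have h7 : (1 + 2 * δ) * G ^ 2 ≤ (1 + 2 * δ) * (1 - δ) ^ 2 := by gcongr
    have h8 : (1 + 2 * δ) * (1 - δ) ^ 2 ≤ 1 := by nlinarith [sq_nonneg δ, mul_pos hδ hδ]
    linarith
  · -- the body in `(1 + δ) K`
    intro x hx
    have hx1 : Nf a m (δ / R ^ 2) x ≤ 1 := hx
    by_cases hx0 : x = 0
    · rw [hx0]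
      exact mem_smul_set.2 ⟨0, hrK (mem_closedBall_self hr.le), smul_zero _⟩
    obtain ⟨i, hi⟩ := hge x hx0
    have hg := hpos x hx0
    have h1 : ⟪a i, x⟫ ^ 2 ≤ (∑ i, ⟪a i, x⟫ ^ (2 * m)) ^ ((m : ℝ)⁻¹) := by
      calc ⟪a i, x⟫ ^ 2 = ((⟪a i, x⟫ ^ 2) ^ m) ^ ((m : ℝ)⁻¹) :=
            (Real.pow_rpow_inv_natCast (sq_nonneg _) hm0).symm
        _ ≤ (∑ i, ⟪a i, x⟫ ^ (2 * m)) ^ ((m : ℝ)⁻¹) := by
            apply Real.rpow_le_rpow (by positivity) _ (by positivity)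
            rw [← pow_mul]
            exact Finset.single_le_sum (f := fun i => ⟪a i, x⟫ ^ (2 * m)) (fun j _ => hnn j x)
              (Finset.mem_univ i)
    have h2 : ⟪a i, x⟫ ^ 2 ≤ 1 := by
      unfold Nf at hx1
      have h3 : 0 ≤ δ / R ^ 2 * ‖x‖ ^ 2 := by positivity
      linarith
    have h3 : ⟪a i, x⟫ ≤ 1 := by nlinarith [sq_nonneg (⟪a i, x⟫ - 1)]
    have h4 : gauge K x ≤ 1 + δ := by
      have : (1 + δ) * ⟪a i, x⟫ ≤ (1 + δ) * 1 := by gcongr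
      linarith
    refine mem_smul_set.2 ⟨(1 + δ)⁻¹ • x, ?_, ?_⟩
    · rw [← hmem, hhom, abs_of_pos (by positivity), inv_mul_le_iff₀ (by positivity), mul_one]
      exact h4
    · rw [smul_smul, mul_inv_cancel₀ (by positivity), one_smul]

end Pool.Agent.J4H84.PZ
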